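import Pool.Agent.R351.GD.S.AllW
import Pool.Agent.Y916.Sl.Lim

/-!
# Generalised logarithms of the points of a short window around an algebraic number: relations of growing degree

For polynomials `F_a`, `q_a` the primitives `Φ_(a,j)` of `x^j dx / (q_a √F_a)`, `j < deg F_a - 1 + deg q_a`, are integrals
of the three kinds on the curve `C_a : y² = F_a(x)`, with logarithmic poles over the zeros of `q_a`. Up to constants they
are the components of the generalised logarithm of the point `R_x` of the generalised Jacobian `G_a` of `C_a` (an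
extension of the Jacobian by a torus of dimension `deg q_a`) defined by `(x, √F_a(x)) - ∞`. The constants `κ` of the
invariant differentials (`2 j + 2 < deg F_a + 2 deg q_a`) are the values of the primitives at `∞`.

The theorem: for given primitives, `κ` and further fixed constants (for instance the periods of `G = ∏ G_a`; `2πi` is one
of them), which generate a field of transcendence degree `ρ`, and for `τ` arbitrary numbers, a window `ξ + 1, …, ξ + H`
around an algebraic number `ξ`, of bounded degree and of height at most `|ξ|^A`, has at most `τ + 1 + ρ` exceptional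
points such that between the generalised logarithms of the points `R_x` over distinct points `x` of the window which are
not exceptional, along any paths, and the `log x`, there is no relation of degree at most `δ` over any number field of
degree at most `δ`, the constants and the arbitrary numbers. Here `δ` may grow: the only condition is
`|ξ| ≥ (H + 2)^((δ + 2)^C)` with `C` independent of `δ`, `H`, `ξ`, and the number of exceptions does not depend on `δ`.

The proof follows the starting library (`MP_4b482e_nt.AlgebraicWindows`, project SL: helper333, helper968, helper737,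
helper118 and the libraries they use), with polynomial bounds in `δ` at every step: the constants of the G-systems of the
monomials of degree at most `D` are powers of `H + 2` whose exponents are polynomials in `D`, the size of the auxiliary
degree `D` is polynomial in `δ`, and the elimination of the constants by Hilbert functions costs a polynomial in `δ`.
-/

set_option autoImplicit false

open Filter Topology Bornology

namespace Pool.Agent.Results.MP_4b482e_nt.GrowingDegreeWindows

/-- The indices `(a, j)`, `j < deg F_a - 1 + deg q_a`, of the differentials. -/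
abbrev Idx {s : ℕ} (F q : Fin s → Polynomial ℤ) : Type := Σ a, Fin ((F a).natDegree - 1 + (q a).natDegree)

/-- The plane without the disc of radius `R` and the ray `- u [0, ∞)`. -/
def Domain (u : ℂ) (R : ℝ) : Set ℂ := {x | R < ‖x‖ ∧ x / u ∈ Complex.slitPlane}

/-- On the domain `S_a` is a continuous square root of `F_a` and `Φ_(a,j)` a primitive of `x^j / (q_a S_a)`. -/
def Primitives {s : ℕ} (F q : Fin s → Polynomial ℤ) (u : ℂ) (R : ℝ) (S : Fin s → ℂ → ℂ) (Φ : Idx F q → ℂ → ℂ) : Prop :=
  ∀ x ∈ Domain u R, (∀ a, ContinuousAt (S a) x ∧ S a x ^ 2 = Polynomial.aeval x (F a)) ∧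
    ∀ p : Idx F q, HasDerivAt (Φ p) (x ^ (p.2 : ℕ) / (Polynomial.aeval x (q p.1) * S p.1 x)) x

/-- The numbers `Φ_(a,j)(x)` and `log x`. -/
noncomputable def number {s : ℕ} {F q : Fin s → Polynomial ℤ} (Φ : Idx F q → ℂ → ℂ) (x : ℂ) : Idx F q ⊕ Unit → ℂ
  | Sum.inl p => Φ p x
  | Sum.inr _ => Complex.log x

/-- Let `F_a`, `q_a` be integral polynomials with positive leading coefficients such that `F_a q_a` is squarefree,
`deg F_a` is odd, `deg F_a + 2 deg q_a ≥ 3` and no `F_a` is proportional to an integral translate of another `F_b`, and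
let `Φ` be primitives of the differentials `x^j dx / (q_a √F_a)` on a domain as above. There are numbers `κ`, equal to the
limits at infinity of the primitives which converge, such that for every finite family `c` of numbers which contains all
the `κ` and `2πi` and all `r`, `m`, `A`, `τ` there is `C` such that for all `δ`, `H`, all roots `ξ`,
`|ξ| ≥ (H + 2)^((δ + 2)^C)`, of nonzero integral polynomials of degree at most `m` with coefficients at most `|ξ|^A` and
all `w_1, …, w_τ ∈ ℂ` there is a set `T` of at most `τ + 1 + trdeg ℚ(c)` integers with this property: if `n_1, …, n_r` are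
distinct integers in `[1, H]` outside `T` such that the `ξ + n_i` are in the domain, `K` is a number field of degree at
most `δ`, `y` consists of nonzero `K`-multiples of the numbers at the `ξ + n_i` plus elements of
`K + ∑ K w_j + ∑ K c_j`, and `P` is a polynomial over `K` of degree at most `δ` with `P(w, c, y) = 0`, then
`P(w, c, Y) = 0` identically in `Y`. -/
theorem result {s : ℕ} (F q : Fin s → Polynomial ℤ)
    (hsf : ∀ a, Squarefree ((F a * q a).map (Int.castRingHom ℚ))) (hodd : ∀ a, Odd (F a).natDegree)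
    (hdeg : ∀ a, 3 ≤ (F a).natDegree + 2 * (q a).natDegree)
    (hpos : ∀ a, 0 < (F a).leadingCoeff ∧ 0 < (q a).leadingCoeff)
    (hdist : ∀ a b, a ≠ b → ∀ h c₁ c₂ : ℤ, c₁ ≠ 0 → c₂ ≠ 0 →
      Polynomial.C c₁ * F a ≠ Polynomial.C c₂ * (F b).comp (Polynomial.X + Polynomial.C h))
    (u : ℂ) (hu : u ≠ 0) (R : ℝ) (S : Fin s → ℂ → ℂ) (Φ : Idx F q → ℂ → ℂ) (hΦ : Primitives F q u R S Φ) :
    ∃ κ : Idx F q → ℂ,
      (∀ p : Idx F q, 2 * (p.2 : ℕ) + 2 < (F p.1).natDegree + 2 * (q p.1).natDegree →
        Tendsto (Φ p) (cobounded ℂ ⊓ 𝓟 {x : ℂ | x / u ∈ Complex.slitPlane}) (𝓝 (κ p))) ∧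
      ∀ (υ : Type) [Fintype υ] (c : υ → ℂ), Set.range κ ⊆ Set.range c → 2 * Real.pi * Complex.I ∈ Set.range c →
      ∀ r m A τ : ℕ, ∃ C : ℕ, ∀ (δ H : ℕ) (ξ : ℂ), ((H : ℝ) + 2) ^ ((δ + 2) ^ C) ≤ ‖ξ‖ →
      (∃ p : Polynomial ℤ, p ≠ 0 ∧ p.natDegree ≤ m ∧ (∀ j, |(p.coeff j : ℝ)| ≤ ‖ξ‖ ^ A) ∧
        Polynomial.aeval ξ p = 0) →
      ∀ w : Fin τ → ℂ, ∃ T : Finset ℕ,
        (T.card : Cardinal) ≤ τ + 1 + Algebra.trdeg ℚ (IntermediateField.adjoin ℚ (Set.range c)) ∧
        ∀ n : Fin r → ℕ, Function.Injective n → (∀ i, 1 ≤ n i ∧ n i ≤ H ∧ n i ∉ T ∧ ξ + n i ∈ Domain u R) →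
        ∀ K : IntermediateField ℚ ℂ, FiniteDimensional ℚ K → Module.finrank ℚ K ≤ δ →
        ∀ y : Fin r × (Idx F q ⊕ Unit) → ℂ,
          (∀ p, ∃ b : K, b ≠ 0 ∧ y p - b * number Φ (ξ + n p.1) p.2 ∈
            Submodule.span K (insert 1 (Set.range (Sum.elim w c)))) →
        ∀ P : MvPolynomial ((Fin τ ⊕ υ) ⊕ Fin r × (Idx F q ⊕ Unit)) K, P.totalDegree ≤ δ →
          MvPolynomial.aeval (Sum.elim (Sum.elim w c) y) P = 0 →
          MvPolynomial.aeval (Sum.elim (fun j => MvPolynomial.C (Sum.elim w c j)) MvPolynomial.X) P =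
            (0 : MvPolynomial (Fin r × (Idx F q ⊕ Unit)) ℂ) := by
  have hG : ∀ a, Pool.Agent.Y916.Sa.GoodP (F a) (q a) := by
    intro a
    have h := hsf a
    rw [Polynomial.map_mul, squarefree_mul_iff] at h
    exact ⟨h.2.1, hodd a, (hpos a).1, h.2.2, (hpos a).2, h.1.isCoprime, hdeg a⟩
  have hx : ∀ (x : ℂ) i, number Φ x i = Pool.Agent.Y916.Sl.xP F q Φ x i := by
    rintro x (p | w) <;> rfl
  simp only [hx]
  obtain ⟨κ, ⟨R', hκ⟩, h⟩ := Pool.Agent.R351.GD.windowsN_exp Pool.Agent.Y916.Sl.tQ
    Pool.Agent.Y916.Sl.tP F q hG (fun a b hab h c₁ c₂ => hdist a b hab h c₁ c₂) hu (R := R) (S := S) (Φ := Φ)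
    (fun x hx1 hx2 => hΦ x ⟨hx1, hx2⟩)
  refine ⟨κ, fun p hp => Pool.Agent.Y916.Sl.limS hG hκ p hp, ?_⟩
  intro υ _ c hc hpi r m A τ
  obtain ⟨E, ⟨C, hC⟩, hE⟩ := h υ c hc hpi r m A τ
  refine ⟨C, fun δ H ξ hξ hp w => ?_⟩
  obtain ⟨T, hT, h1⟩ := hE δ H ξ ((pow_le_pow_right₀ (by
    have : (0 : ℝ) ≤ H := Nat.cast_nonneg H
    linarith) (hC δ)).trans hξ) hp w
  exact ⟨T, hT, fun n hn hnb => h1 n hn hnb⟩

end Pool.Agent.Results.MP_4b482e_nt.GrowingDegreeWindows
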