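import Pool.Agent.R437.Met.LBL

/-!
# Exponentials of polynomials in logarithms of the algebraic numbers near given numbers

For the torus `G = G_m^s` the problem asks whether, for nonzero complex numbers `τ_1, …, τ_s`, the field generated over
`Q̄ (2πi)` by the `τ_i` and the `log τ_i` has transcendence degree at least the dimension `t` of the `ℚ`-space spanned by
the `log τ_i` modulo `2πi ℚ`. Let `Q_1, …, Q_M` be polynomials in one variable `s` with real (for instance algebraic)
coefficients such that no nontrivial integer combination of `s, Q_1, …, Q_M` is constant, let `x_1, …, x_n` be elements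
of a number field `F` in `ℂ`, outside `(-∞, 0]`, and take for the `τ_i` the numbers `x_j` and `exp (Q_k (log x_j))`, for
instance `x ^ (log x)`, `x ^ ((log x) ^ 2)`, `x ^ (√2 log x)`, …. Then the `n (M + 1)` numbers `log x_j` and
`exp (Q_k (log x_j))` should be algebraically independent over `Q̄ (π)` if the logarithms `log x_j`, `Q_k (log x_j)` are
linearly independent over `ℚ` (modulo `2πi ℚ`).

We prove this in bounded degree and height near every point outside a small set: let `c_0, c_1, …` be any complex numbers
and `τ > 0`. For all `ξ` in the `n`-th power of `ℂ` without `(-∞, 0]`, outside a set of Hausdorff dimension at most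
`2 [F : ℚ] (n - 1) / τ`, all `n`-tuples `x` of elements of `F` of height at most `T`, `T` large, with
`|ξ_j - x_j| ≤ C T ^ (-τ)` are good: `π` and the `n (M + 1)` numbers satisfy no polynomial relation of degree at most `d`
and height at most `T ^ A` over `F`, and the `n (M + 1)` numbers satisfy no such relation, not even an approximate one,
whose coefficients are linear combinations of `c_0, …, c_(g-1)` with coefficients in `F` of height at most `T ^ A`. For
`n = 1` the exceptional set has dimension zero, for every `τ > 0`. The starting file `PolynomialsInLogs` treats almost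
all tuples of rational numbers of height at most `T`, with real integer relations.
-/

set_option autoImplicit false

open NumberField

namespace Pool.Agent.Results.MP_4b482e_nt.NearEveryPoint

open Pool.Agent.R437.Met

/-- `log x` and `exp (Q_k (log x))` -/
noncomputable def value {M : ℕ} (Q : Fin M → Polynomial ℝ) (i : Option (Fin M)) (x : ℂ) : ℂ :=
  i.elim (Complex.log x) fun k => Complex.exp (Polynomial.aeval (Complex.log x) (Q k))

/-- The polynomials of degree at most `d` in each variable, all of whose coefficients are of the form `∑ c_i ι(a_i)`,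
where the `a_i` are integers of the number field `F` all of whose conjugates have absolute value at most `H`. -/
def Admissible {σ : Type} {g : ℕ} (F : Type) [Field F] [NumberField F] (ι : F →+* ℂ) (c : Fin g → ℂ) (d : ℕ)
    (H : ℝ) (P : MvPolynomial σ ℂ) : Prop :=
  (∀ j, P.degreeOf j ≤ d) ∧
    ∀ s, ∃ a : Fin g → 𝓞 F, (∀ i (φ : F →+* ℂ), ‖φ (a i)‖ ≤ H) ∧ P.coeff s = ∑ i, c i * ι (a i)

/-- The tuple `x` of elements of `F` is good: every admissible polynomial takes at the numbers `log x_j`,
`exp (Q_k (log x_j))` a value which is at least `δ` times each of its coefficients, and `π` and these numbers satisfy no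
relation `R = 0` with a nonzero polynomial `R` of degree at most `d` in each variable whose coefficients are integers of
`F` with conjugates of absolute value at most `H`. -/
def Good {n M g : ℕ} (Q : Fin M → Polynomial ℝ) (F : Type) [Field F] [NumberField F] (ι : F →+* ℂ)
    (c : Fin g → ℂ) (d : ℕ) (H δ : ℝ) (x : Fin n → F) : Prop :=
  (∀ P : MvPolynomial (Fin n × Option (Fin M)) ℂ, Admissible F ι c d H P → ∀ s,
    δ * ‖P.coeff s‖ ≤ ‖MvPolynomial.aeval (fun p : Fin n × Option (Fin M) => value Q p.2 (ι (x p.1))) P‖) ∧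
  ∀ R : MvPolynomial (Option (Fin n × Option (Fin M))) (𝓞 F), R ≠ 0 → (∀ i, R.degreeOf i ≤ d) →
    (∀ s (φ : F →+* ℂ), ‖φ ((R.coeff s : 𝓞 F) : F)‖ ≤ H) →
    MvPolynomial.eval₂ (ι.comp (algebraMap (𝓞 F) F))
      (fun o => o.elim (Real.pi : ℂ) fun p : Fin n × Option (Fin M) => value Q p.2 (ι (x p.1))) R ≠ 0

/-- The element `x` of `F` is a quotient of integers all of whose conjugates have absolute value at most `T`. -/
def HeightLe (F : Type) [Field F] [NumberField F] (T : ℝ) (x : F) : Prop :=
  ∃ a b : 𝓞 F, b ≠ 0 ∧ (∀ φ : F →+* ℂ, ‖φ a‖ ≤ T ∧ ‖φ b‖ ≤ T) ∧ x = a / b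

lemma slit_conn : IsPreconnected Complex.slitPlane :=
  (Complex.starConvex_one_slitPlane.isPathConnected Complex.one_mem_slitPlane).isConnected.isPreconnected

lemma value_an {M : ℕ} (Q : Fin M → Polynomial ℝ) (i : Option (Fin M)) (x : ℂ) (hx : x ∈ Complex.slitPlane) :
    AnalyticAt ℂ (value Q i) x := by
  have hlog : AnalyticAt ℂ Complex.log x := analyticAt_clog hx
  cases i with
  | none => exact hlog
  | some k =>
    have h1 : AnalyticAt ℂ (fun x : ℂ => Polynomial.aeval (Complex.log x) (Q k)) x := by
      have h2 : (fun x : ℂ => Polynomial.aeval (Complex.log x) (Q k)) = fun x =>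
          Polynomial.aeval (Complex.log x) ((Q k).map (algebraMap ℝ ℂ)) := by
        funext y
        rw [Polynomial.aeval_map_algebraMap]
      rw [h2]
      exact AnalyticAt.aeval_polynomial hlog _
    exact h1.cexp

lemma value_real {M : ℕ} (Q : Fin M → Polynomial ℝ) (i : Option (Fin M)) (t : ℝ) (ht : 0 < t) :
    value Q i (t : ℂ) = ((Pool.Agent.TH21.MS.up Q i t : ℝ) : ℂ) := by
  cases i with
  | none => exact (Complex.ofReal_log ht.le).symm
  | some k =>
    change Complex.exp (Polynomial.aeval (Complex.log (t : ℂ)) (Q k)) =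
      ((Real.exp ((Q k).eval (Real.log t)) : ℝ) : ℂ)
    rw [← Complex.ofReal_log ht.le, Complex.ofReal_exp]
    congr 1
    have h := Polynomial.aeval_algebraMap_apply ℂ (Real.log t) (Q k)
    rw [Polynomial.coe_aeval_eq_eval] at h
    exact h

/-- **Algebraic numbers near given numbers.** Let `Q_1, …, Q_M` be real polynomials in `s` such that
`m_0 s + ∑ m_k Q_k` is not constant for integers `m_0, …, m_M` not all zero, `F` a number field with an embedding `ι` in
`ℂ`, `n ≥ 1`, `c` a sequence of complex numbers. For every `τ > 0` there is a set `E` of Hausdorff dimension at most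
`2 [F : ℚ] (n - 1) / τ` such that for all `ξ` in `ℂ ^ n` outside `E` without coordinates in `(-∞, 0]` and all `g`, `d`,
`A` there is `B` such that for all `C` and all large `T`: the `n`-tuples `x` of elements of `F` of height at most `T`
with `|ξ_j - ι(x_j)| ≤ C T ^ (-τ)` for all `j` are good, for the degree `d`, the height `T ^ A`, the first `g` of the
numbers `c`, and the measure `T ^ (-B)`. -/
theorem result (M n : ℕ) (hn : 1 ≤ n) (Q : Fin M → Polynomial ℝ)
    (hQ : ∀ (m0 : ℤ) (m : Fin M → ℤ),
      (Polynomial.C (m0 : ℝ) * Polynomial.X + ∑ k, Polynomial.C (m k : ℝ) * Q k).natDegree = 0 → m0 = 0 ∧ m = 0)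
    (F : Type) [Field F] [NumberField F] (ι : F →+* ℂ) (c : ℕ → ℂ) (τ : ℝ) (hτ : 0 < τ) :
    ∃ E : Set (Fin n → ℂ), dimH E ≤ ENNReal.ofReal (2 * (Module.finrank ℚ F : ℝ) * ((n : ℝ) - 1) / τ) ∧
      ∀ ξ : Fin n → ℂ, (∀ j, ξ j ∈ Complex.slitPlane) → ξ ∉ E → ∀ (g d : ℕ) (A : ℝ), ∃ B : ℝ, ∀ C : ℝ, ∃ T₁ : ℝ,
        ∀ T : ℝ, T₁ ≤ T → ∀ x : Fin n → F,
          (∀ j, HeightLe F T (x j) ∧ ‖ξ j - ι (x j)‖ ≤ C * T ^ (-τ)) →
            Good Q F ι (fun i : Fin g => c i) d (T ^ A) (T ^ (-B)) x := by
  obtain ⟨h, hLB⟩ := Pool.Agent.TH21.MS.LB_up Q hQ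
  exact GG.master F ι n hn (fun _ => value Q) Complex.slitPlane Complex.isOpen_slitPlane
    (fun _ i x hx => value_an Q i x hx)
    (fun _ => LBL.locInd_of_LB (Pool.Agent.TH21.MS.up Q) h hLB (value Q) Complex.slitPlane
      slit_conn (fun i x hx => value_an Q i x hx) 0
      (fun t ht => Complex.ofReal_mem_slitPlane.2 ht) (fun i t ht => value_real Q i t ht)) c τ hτ

end Pool.Agent.Results.MP_4b482e_nt.NearEveryPoint
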