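import Mathlib
import Pool.Agent.R350.HT

/-!
# The relative semi-abelian conjecture in bounded degree for almost all points of finitely generated groups

Let `G = 𝔾ₘ ^ s × E_1 × ⋯ × E_r × E'_1 × ⋯ × E'_n` (repetitions are allowed, so that several points of one
semi-abelian variety are included), with arbitrary elliptic curves `E_b = ℂ / Ω_b` over the algebraic
numbers and elliptic curves `E'_c = ℂ / Ω'_c` with complex multiplication by `α_c`.  Consider the points
whose logarithms are

  `t_l = τ_l + ∑_j m_{l j} a_{l j}`,  `q_b = ∑_j m_{b j} u_{b j}`,  `p_c = ∑_j (m_{c j} + m'_{c j} α_c) u'_{c j}`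

with integral `m`, where `a_{l 1}, …, a_{l R}` are `ℚ`-linearly independent logarithms of algebraic
numbers, `u_{b 1}, …, u_{b R}` and `u'_{c 1}, …, u'_{c R}` elliptic logarithms of algebraic points which
are linearly independent over the field of multiplications, and `τ_l` are arbitrary complex numbers.
Let `σ_b ζ + ρ_b z` be an integral of the second kind on `E_b`.

Let `W` be a space over the algebraic numbers of dimension at most `M` which contains `1` and the periods
and quasi-periods of all the curves, for instance spanned by monomials in the periods of `G` and in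
arbitrary further numbers.  We prove that for all but `C |A| ^ ((k - 1) R + M binom (k + D, D))` of the
`|A| ^ (k R)` integral parameters with values in an arbitrary finite set `A`, `k = s + r + 2 n`, the `k`
numbers `t_l`, `σ_b ζ (q_b) + ρ_b q_b`, `p_c`, `ζ (p_c)` satisfy no relation of total degree at most `D`
with coefficients in `W`.  The constant `C` depends only on `s`, `r`, `n`, `R`, `M` and `D`.

If `r = 0` these are all the components of the generalised logarithm, and their number `2 n + s` is the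
lower bound of the conjecture.  The exponent is optimal up to the second summand, which does not depend
on `R`: if `0 ∈ A` there are `|A| ^ ((k - 1) R)` parameters with a given row equal to `0`.

In the proof (`Pool.Agent.R350.HO`, …, `HT`) derivations of ultrapowers of `ℂ` which come from the
parameters show that a relation is only possible on a set of small dimension; the only facts from
transcendence theory which are used are the linear independence theorems of Baker and of Masser (in the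
starting library, `Pool.Agent.H297R2.BakerThm` and `Pool.Agent.W245.EB.RedZ`).
-/

set_option autoImplicit false

open scoped PeriodPair

noncomputable section

namespace Pool.Agent.Results.MP_4b482e_nt.PointsInGroups

open Module MvPolynomial

/-- The field of algebraic numbers. -/
abbrev Qbar : IntermediateField ℚ ℂ := algebraicClosure ℚ ℂ

/-- The Weierstrass zeta function
`ζ(z) = 1/z + ∑_{l ≠ 0} (1/(z - l) + 1/l + z/l²)` (in Lean `1/0 = 0`, so that the term with `l = 0`
of the sum below is `1/z`). -/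
def zetaW (L : PeriodPair) (z : ℂ) : ℂ := ∑' l : L.lattice, (1 / (z - l) + 1 / l + z / l ^ 2)

/-- The quasi-period `η(ω) = ζ(z + ω) - ζ(z)` attached to `ω ∈ Ω`, computed at `z = ω₁/2`. -/
def quasi (L : PeriodPair) (ω : ℂ) : ℂ := zetaW L (L.ω₁ / 2 + ω) - zetaW L (L.ω₁ / 2)

/-- `β` belongs to the field `k = End(ℂ/Ω) ⊗ ℚ`: some multiple `m β`, `m ≥ 1`, maps the lattice `Ω`
to itself. -/
def IsMult (L : PeriodPair) (β : ℂ) : Prop :=
  ∃ m : ℕ, 0 < m ∧ ∀ ω ∈ L.lattice, (m : ℂ) * β * ω ∈ L.lattice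

/-- The lattice has algebraic invariants, and the `u_j` are elliptic logarithms of algebraic points
(the elements of the lattice are allowed), linearly independent over `k`. -/
def EllipticLogs (L : PeriodPair) {R : ℕ} (u : Fin R → ℂ) : Prop :=
  IsAlgebraic ℚ L.g₂ ∧ IsAlgebraic ℚ L.g₃ ∧
  (∀ j, u j ∈ L.lattice ∨ IsAlgebraic ℚ (℘[L] (u j))) ∧
  ∀ β : Fin R → ℂ, (∀ j, IsMult L (β j)) → ∑ j, β j * u j = 0 → ∀ j, β j = 0

/-- The space contains the periods and quasi-periods of the curve. -/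
def HasPeriods (W : Submodule Qbar ℂ) (L : PeriodPair) : Prop :=
  L.ω₁ ∈ W ∧ L.ω₂ ∈ W ∧ quasi L L.ω₁ ∈ W ∧ quasi L L.ω₂ ∈ W

/-- The indices of the parameters: `s` logarithms, `r` integrals of the second kind, and two rows for
each of the `n` points with complex multiplication. -/
abbrev Idx (s r n : ℕ) : Type := Fin s ⊕ (Fin r ⊕ (Fin n ⊕ Fin n))

variable {s r n R : ℕ}

/-- The logarithms `t_l = τ_l + ∑_j m_{l j} a_{l j}`. -/
def logarithm (τ : Fin s → ℂ) (a : Fin s → Fin R → ℂ) (m : Idx s r n → Fin R → ℤ) (l : Fin s) : ℂ :=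
  τ l + ∑ j, (m (Sum.inl l) j : ℂ) * a l j

/-- The points `q_b = ∑_j m_{b j} u_{b j}`. -/
def point (u : Fin r → Fin R → ℂ) (m : Idx s r n → Fin R → ℤ) (b : Fin r) : ℂ :=
  ∑ j, (m (Sum.inr (Sum.inl b)) j : ℂ) * u b j

/-- The points `p_c = ∑_j (m_{c j} + m'_{c j} α_c) u'_{c j}`. -/
def pointCM (α : Fin n → ℂ) (u' : Fin n → Fin R → ℂ) (m : Idx s r n → Fin R → ℤ) (c : Fin n) : ℂ :=
  ∑ j, ((m (Sum.inr (Sum.inr (Sum.inl c))) j : ℂ) + m (Sum.inr (Sum.inr (Sum.inr c))) j * α c) *
    u' c j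

/-- The points `q_b`, `p_c` are different from `0` and algebraic, and the numbers `t_l`,
`σ_b ζ(q_b) + ρ_b q_b`, `p_c`, `ζ(p_c)` satisfy no nonzero polynomial relation of total degree at most
`D` with coefficients in `W`. -/
def Good (W : Submodule Qbar ℂ) (D : ℕ) (L : Fin r → PeriodPair) (σ ρ : Fin r → ℂ)
    (L' : Fin n → PeriodPair) (t : Fin s → ℂ) (q : Fin r → ℂ) (p : Fin n → ℂ) : Prop :=
  (∀ b, q b ∉ (L b).lattice ∧ IsAlgebraic ℚ (℘[L b] (q b))) ∧
  (∀ c, p c ∉ (L' c).lattice ∧ IsAlgebraic ℚ (℘[L' c] (p c))) ∧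
  ∀ Q : MvPolynomial (Idx s r n) ℂ, Q.totalDegree ≤ D → (∀ e, Q.coeff e ∈ W) →
    MvPolynomial.eval (Sum.elim t (Sum.elim (fun b => σ b * zetaW (L b) (q b) + ρ b * q b)
      (Sum.elim p fun c => zetaW (L' c) (p c)))) Q = 0 → Q = 0

open Pool.Agent.W245.EB

theorem lattice_mem {W : Submodule Qbar ℂ} {L : PeriodPair} (h : HasPeriods W L) :
    (∀ ω ∈ L.lattice, ω ∈ W) ∧ ∀ ω ∈ L.lattice, H667R3.eta L ω ∈ W := by
  have smul : ∀ {x : ℂ}, x ∈ W → ∀ {b : ℂ}, b ∈ QB → b * x ∈ W := fun {x} hx {b} hb =>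
    W.smul_mem (⟨b, hb⟩ : Qbar) hx
  refine ⟨?_, ?_⟩
  · intro ω hω
    obtain ⟨x, y, h1⟩ := PeriodPair.mem_lattice.1 hω
    rw [← h1]
    exact W.add_mem (smul h.1 (intCast_mem QB x)) (smul h.2.1 (intCast_mem QB y))
  · intro ω hω
    obtain ⟨x, y, h1⟩ := PeriodPair.mem_lattice.1 hω
    have h4 := H667R3.intCast_mul_mem L L.ω₁_mem_lattice x
    have h5 := H667R3.intCast_mul_mem L L.ω₂_mem_lattice y
    rw [← h1, H667R3.eta_add L h4 h5, H667R3.eta_zsmul L L.ω₁_mem_lattice,
      H667R3.eta_zsmul L L.ω₂_mem_lattice]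
    exact W.add_mem (smul h.2.2.1 (intCast_mem QB x)) (smul h.2.2.2 (intCast_mem QB y))

/-- **Main result.** -/
theorem result (s r n R M D : ℕ) (hD : 1 ≤ D) : ∃ C : ℕ,
    -- logarithms of algebraic numbers and their translates
    ∀ (a : Fin s → Fin R → ℂ), (∀ l j, IsAlgebraic ℚ (Complex.exp (a l j))) →
    (∀ l, LinearIndependent ℚ (a l)) → ∀ τ : Fin s → ℂ,
    -- integrals of the second kind on arbitrary curves
    ∀ (L : Fin r → PeriodPair) (u : Fin r → Fin R → ℂ), (∀ b, EllipticLogs (L b) (u b)) →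
    ∀ σ ρ : Fin r → ℂ, (∀ b, IsAlgebraic ℚ (σ b)) → (∀ b, IsAlgebraic ℚ (ρ b)) →
    (∀ b, σ b ≠ 0 ∨ ρ b ≠ 0) →
    -- curves with complex multiplication
    ∀ (L' : Fin n → PeriodPair) (u' : Fin n → Fin R → ℂ), (∀ c, EllipticLogs (L' c) (u' c)) →
    ∀ α : Fin n → ℂ, (∀ c, (α c).im ≠ 0) → (∀ c, ∀ ω ∈ (L' c).lattice, α c * ω ∈ (L' c).lattice) →
    -- the coefficients
    ∀ W : Submodule Qbar ℂ, Module.Finite Qbar W → finrank Qbar W ≤ M → (1 : ℂ) ∈ W →
    (∀ b, HasPeriods W (L b)) → (∀ c, HasPeriods W (L' c)) →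
    ∀ A : Finset ℤ, A.Nonempty →
      {m : Idx s r n → Fin R → ℤ | (∀ i j, m i j ∈ A) ∧
        ¬ Good W D L σ ρ L' (logarithm τ a m) (point u m) (pointCM α u' m)}.ncard ≤
      C * A.card ^ ((s + r + 2 * n - 1) * R + M * (s + r + 2 * n + D).choose D) := by
  classical
  obtain ⟨C, hC⟩ := Pool.Agent.R350.data_count (s + r + 2 * n) R M D
  refine ⟨C, ?_⟩
  intro a ha hli τ L u hu σ ρ hσ hρ hσρ L' u' hu' α hα hmul W hWf hWr h1W hWL hWL' A hA
  let d : Data (Fin s) (Fin r) (Fin n) (Fin R) :=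
    { wA := a
      hA := fun l => ⟨ha l, hli l⟩
      LB := L
      g2B := fun b => (hu b).1
      g3B := fun b => (hu b).2.1
      uB := u
      hB := fun b => ⟨(hu b).2.2.1, fun β hβ h0 => funext fun j => (hu b).2.2.2 β hβ h0 j⟩
      s := σ
      ρ := ρ
      hs := hσ
      hρ := hρ
      hsρ := hσρ
      LC := L'
      g2C := fun c => (hu' c).1
      g3C := fun c => (hu' c).2.1
      uC := u'
      hC := fun c => ⟨(hu' c).2.2.1, fun β hβ h0 => funext fun j => (hu' c).2.2.2 β hβ h0 j⟩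
      α := α
      hα := hα
      hmul := hmul }
  set T := {m : Idx s r n → Fin R → ℤ | (∀ i j, m i j ∈ A) ∧
    ¬ Good W D L σ ρ L' (logarithm τ a m) (point u m) (pointCM α u' m)} with hT
  have hfin : T.Finite := by
    have h1 : ((Fintype.piFinset fun _ : Idx s r n => Fintype.piFinset fun _ : Fin R => A :
        Finset (Idx s r n → Fin R → ℤ)) : Set (Idx s r n → Fin R → ℤ)).Finite :=
      Finset.finite_toSet _
    refine h1.subset fun m hm => ?_
    rw [Finset.mem_coe, Fintype.mem_piFinset]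
    intro i
    rw [Fintype.mem_piFinset]
    exact hm.1 i
  rw [Set.ncard_eq_toFinset_card T hfin]
  refine hC (Fin s) (Fin r) (Fin n) (Fin R) ?_ (Fintype.card_fin R) d τ W hWf hWr A hA _ ?_
  · simp only [Data.Ind, Fintype.card_sum, Fintype.card_fin]
    ring
  intro m hm
  rw [Set.Finite.mem_toFinset] at hm
  refine ⟨hm.1, fun h => hm.2 ?_⟩
  have hB : ∀ b, point u m b ∈ EL (L b) := fun b => d.pB_mem m b
  have hCM : ∀ c, pointCM α u' m c ∈ EL (L' c) := fun c => d.pC_mem m c
  have hBn : ∀ b, point u m b ∉ (L b).lattice := by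
    intro b hb
    apply h.ne hD h1W (Sum.inr (Sum.inl b))
    show σ b * zt (L b) (point u m b) + ρ b * point u m b ∈ W
    rw [zt_of_mem hb]
    obtain ⟨h4, h5⟩ := lattice_mem (hWL b)
    exact W.add_mem (W.smul_mem (⟨σ b, mem_QB.2 (hσ b)⟩ : Qbar) (h5 _ hb))
      (W.smul_mem (⟨ρ b, mem_QB.2 (hρ b)⟩ : Qbar) (h4 _ hb))
  have hCn : ∀ c, pointCM α u' m c ∉ (L' c).lattice := by
    intro c hc
    exact h.ne hD h1W (Sum.inr (Sum.inr (Sum.inl c))) ((lattice_mem (hWL' c)).1 _ hc)
  refine ⟨fun b => ⟨hBn b, (hB b).resolve_left (hBn b)⟩,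
    fun c => ⟨hCn c, (hCM c).resolve_left (hCn c)⟩, fun Q h1 h2 h3 => h Q h1 h2 ?_⟩
  rw [← h3]
  congr 2
  funext i
  rcases i with l | b | c | c
  · rfl
  · show σ b * zt (L b) (point u m b) + ρ b * point u m b =
      σ b * zetaW (L b) (point u m b) + ρ b * point u m b
    rw [zt_of_notMem (hBn b)]
    rfl
  · rfl
  · show zt (L' c) (pointCM α u' m c) = zetaW (L' c) (pointCM α u' m c)
    rw [zt_of_notMem (hCn c)]
    rfl

end Pool.Agent.Results.MP_4b482e_nt.PointsInGroups
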