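import Pool.Agent.Results.MP_4b482e_nt.PolynomialsInLogs
import Pool.Agent.R482.ST.Frac

/-!
# Exponentials of polynomials in logarithms at all fractions near vectors of a sequence

Let `f_k`, `k = 0, 1, 2, …`, be positive functions on `(a₀, ∞)`, `a₀ ≥ 0`, such that `f_k(t) / t` is nondecreasing,
and such that the sequence `f_k(t)` has exponent of convergence at most `τ` for each `t > a₀`: for instance `f_k(t)
= v_k t` (dilatations; `τ` the exponent of convergence of `v_k > 0`), `f_k(t) = t ^ (v_k)` for exponents `v_k ≥ 1`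
(`τ = 0`), or the orbits `f_k(t) = g (g (⋯ g (t)))` of any map `g` with `g(t) > t` and `g(t) / t` nondecreasing (`τ
= 0`). Let `[a, b] ⊂ (0, ∞)`, the `Q_k` are real polynomials such that `c_0 s + ∑ c_k Q_k` is not constant for
integers `c_0, …, c_M` not all `0`, `A ≥ 0`, `θ < 1` and `β > 2 - 2 / ((d + 1)^((M + 1) n + 1) + 1)`. There is `B`
such that for all vectors `u` in `(ℝ²)ⁿ`, `‖u‖ > a₀`, outside a set of Hausdorff dimension at most `(2(n - 1) + β +
τ) / (1 - θ)` and each `c`, for all but finitely many `k` the following is true for ALL tuples `q = (q_1, …, q_n)`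
of fractions in the given intervals whose denominators and numerators differ by at most `c r ^ θ` from the
components of `(r / ‖u‖) u`, `r = f_k(‖u‖)`: no nonzero polynomial of degree at most `d` in each variable with
integer coefficients of absolute value at most `r ^ A` takes at the `n (M + 1) + 1` numbers `π`, `log x_j` and `exp
(Q_k (log x_j))` a value of absolute value at most `r ^ (-B)`.
-/

set_option autoImplicit false

namespace Pool.Agent.Results.MP_4b482e_nt.StarshapedLogs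

open PolynomialsInLogs (numbers)

/-- the functions `f n` are positive on `(a, ∞)`, `a ≥ 0`, and `f n x / x` is nondecreasing there -/
def Starshaped (a : ℝ) (f : ℕ → ℝ → ℝ) : Prop :=
  0 ≤ a ∧ ∀ n : ℕ, ∀ x y : ℝ, a < x → x ≤ y → 0 < f n x ∧ f n x / x ≤ f n y / y

/-- for each `x > a` the exponent of convergence of the sequence `f n x` is at most `τ` -/
def ExpLe (a : ℝ) (f : ℕ → ℝ → ℝ) (τ : ℝ) : Prop :=
  ∀ x : ℝ, a < x → ∀ t : ℝ, τ < t → Summable (fun n : ℕ => (f n x) ^ (-t))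

/-- The denominators and the numerators of the `q j` differ by at most `δ` from the components of the vector
`(g ‖u‖ / ‖u‖) u` (the radial extension of `g`; the norm is the maximum norm). -/
def Near {n : ℕ} (g : ℝ → ℝ) (δ : ℝ) (u : Fin n → ℝ × ℝ) (q : Fin n → ℚ) : Prop :=
  ∀ j, |((q j).den : ℝ) - g ‖u‖ / ‖u‖ * (u j).1| ≤ δ ∧ |((q j).num : ℝ) - g ‖u‖ / ‖u‖ * (u j).2| ≤ δ

/-- **Theorem.** Let `f_k`, `k = 0, 1, 2, …`, be positive functions on `(a₀, ∞)`, `a₀ ≥ 0`, such that `f_k(t) / t` is nondecreasing,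
and such that the sequence `f_k(t)` has exponent of convergence at most `τ` for each `t > a₀`: for instance `f_k(t)
= v_k t` (dilatations; `τ` the exponent of convergence of `v_k > 0`), `f_k(t) = t ^ (v_k)` for exponents `v_k ≥ 1`
(`τ = 0`), or the orbits `f_k(t) = g (g (⋯ g (t)))` of any map `g` with `g(t) > t` and `g(t) / t` nondecreasing (`τ
= 0`). Let `[a, b] ⊂ (0, ∞)`, the `Q_k` are real polynomials such that `c_0 s + ∑ c_k Q_k` is not constant for
integers `c_0, …, c_M` not all `0`, `A ≥ 0`, `θ < 1` and `β > 2 - 2 / ((d + 1)^((M + 1) n + 1) + 1)`. There is `B`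
such that for all vectors `u` in `(ℝ²)ⁿ`, `‖u‖ > a₀`, outside a set of Hausdorff dimension at most `(2(n - 1) + β +
τ) / (1 - θ)` and each `c`, for all but finitely many `k` the following is true for ALL tuples `q = (q_1, …, q_n)`
of fractions in the given intervals whose denominators and numerators differ by at most `c r ^ θ` from the
components of `(r / ‖u‖) u`, `r = f_k(‖u‖)`: no nonzero polynomial of degree at most `d` in each variable with
integer coefficients of absolute value at most `r ^ A` takes at the `n (M + 1) + 1` numbers `π`, `log x_j` and `exp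
(Q_k (log x_j))` a value of absolute value at most `r ^ (-B)`.
The functions `v_n x`, `v_n > 0`, are starshaped on `(0, ∞)`, of exponent `τ` if `v` has exponent of convergence at most
`τ`; the functions `x ^ (v_n)`, `v_n ≥ 1`, are starshaped on `(1, ∞)`, of exponent `0` if the sums of `exp (-t v_n)` converge
for `t > 0`; and the iterates of a map `g` with `g(x) > x` for `x > a` and `g(x) / x` nondecreasing are starshaped on
`(a, ∞)`, of exponent `0`. -/
theorem result (M n d : ℕ) (hn : 1 ≤ n) (Q : Fin M → Polynomial ℝ)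
    (hQ : ∀ (c0 : ℤ) (c : Fin M → ℤ),
      (Polynomial.C (c0 : ℝ) * Polynomial.X + ∑ k, Polynomial.C (c k : ℝ) * Q k).natDegree = 0 → c0 = 0 ∧ c = 0)
    (A a b β : ℝ) (hA : 0 ≤ A) (ha : 0 < a) (hab : a < b)
    (hβ : 2 - 2 / (((d : ℝ) + 1) ^ ((M + 1) * n + 1) + 1) < β) :
    (∃ B : ℝ, ∀ (f : ℕ → ℝ → ℝ) (a₀ τ θ : ℝ), Starshaped a₀ f → 0 ≤ τ → ExpLe a₀ f τ → θ < 1 →
      ∃ E : Set (Fin n → ℝ × ℝ), dimH E ≤ ENNReal.ofReal ((2 * ((n : ℝ) - 1) + β + τ) / (1 - θ)) ∧
        ∀ u : Fin n → ℝ × ℝ, a₀ < ‖u‖ → u ∉ E → ∀ c : ℝ, ∃ k₀ : ℕ, ∀ k : ℕ, k₀ ≤ k → ∀ q : Fin n → ℚ,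
          (∀ j, a ≤ q j ∧ q j ≤ b) →
          Near (f k) (c * (f k ‖u‖) ^ θ) u q →
            ∀ P : MvPolynomial (Option (Fin n × Option (Fin M))) ℤ, P ≠ 0 → (∀ x, P.degreeOf x ≤ d) →
              (∀ s, |((P.coeff s : ℤ) : ℝ)| ≤ (f k ‖u‖) ^ A) →
                (f k ‖u‖) ^ (-B) < |MvPolynomial.aeval (numbers Q q) P|) ∧
    (∀ (v : ℕ → ℝ) (τ : ℝ), (∀ n, 0 < v n) → (∀ t : ℝ, τ < t → Summable (fun n : ℕ => (v n) ^ (-t))) →
      Starshaped 0 (fun n x => v n * x) ∧ ExpLe 0 (fun n x => v n * x) τ) ∧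
    (∀ v : ℕ → ℝ, (∀ n, 1 ≤ v n) → (∀ t : ℝ, 0 < t → Summable fun n : ℕ => Real.exp (-(t * v n))) →
      Starshaped 1 (fun n x => x ^ (v n)) ∧ ExpLe 1 (fun n x => x ^ (v n)) 0) ∧
    (∀ (a : ℝ) (g : ℝ → ℝ), 0 ≤ a → (∀ x y : ℝ, a < x → x ≤ y → g x / x ≤ g y / y) → (∀ x : ℝ, a < x → x < g x) →
      Starshaped a (fun n x => g^[n] x) ∧ ExpLe a (fun n x => g^[n] x) 0) := by
  refine ⟨?_, Pool.Agent.R482.ST.ex_mul, Pool.Agent.R482.ST.ex_pow, Pool.Agent.R482.ST.ex_orbit⟩
  obtain ⟨B0, C0, h0⟩ := PolynomialsInLogs.result M n d hn Q hQ A a b β hA ha hab hβ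
  refine Pool.Agent.R482.ST.poly_windows hn (fun _ => a) (fun _ => b) (fun q P => |MvPolynomial.aeval (numbers Q q) P|) d hA
    (Pool.Agent.R482.ST.beta_pos hβ) ⟨B0, C0, fun T hT => ?_⟩
  have he : {q : Fin n → ℚ | (∀ j, a ≤ q j ∧ q j ≤ b ∧ ((q j).den : ℝ) ≤ T) ∧
      ∃ P : MvPolynomial (Option (Fin n × Option (Fin M))) ℤ, P ≠ 0 ∧ (∀ x, P.degreeOf x ≤ d) ∧
        (∀ s, |((P.coeff s : ℤ) : ℝ)| ≤ T ^ A) ∧ |MvPolynomial.aeval (numbers Q q) P| ≤ T ^ (-B0)} = PolynomialsInLogs.Exceptional n d Q a b A B0 T := by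
    ext q
    constructor
    · rintro ⟨g1, g2⟩
      exact ⟨fun j => ⟨⟨(g1 j).1, (g1 j).2.1⟩, (g1 j).2.2⟩, g2⟩
    · rintro ⟨g1, g2⟩
      exact ⟨fun j => ⟨(g1 j).1.1, (g1 j).1.2, (g1 j).2⟩, g2⟩
  beta_reduce
  rw [he]
  exact h0 T hT

end Pool.Agent.Results.MP_4b482e_nt.StarshapedLogs
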